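import Pool.Agent.H.MP_aec1ed_pr.A

/-! A weakly support-preserving endomorphism that is neither a tilting nor max nor min. -/

namespace Pool.Agent.Results.MP_aec1ed_pr.Exotic

/-- finitely supported probability measures on the naturals -/
def P := {μ : ℕ →₀ ℝ // (∀ x, 0 ≤ μ x) ∧ ∑ x ∈ μ.support, μ x = 1}

/-- `ρ` is the convolution of `μ` and `ν` -/
def Conv (μ ν ρ : P) : Prop := ∀ n, ρ.1 n = ∑ x ∈ Finset.HasAntidiagonal.antidiagonal n, μ.1 x.1 * ν.1 x.2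

theorem result : ∃ Ψ : P → P, (∀ μ ν ρ, Conv μ ν ρ → Conv (Ψ μ) (Ψ ν) (Ψ ρ)) ∧
    (∀ μ, (Ψ μ).1.support ⊆ μ.1.support) ∧
    (∀ β : ℝ, ¬ ∀ μ s, (Ψ μ).1 s =
      μ.1 s * Real.exp (-β * s) / ∑ t ∈ μ.1.support, μ.1 t * Real.exp (-β * t)) ∧
    (¬ ∀ μ (h : μ.1.support.Nonempty), (Ψ μ).1 = Finsupp.single (μ.1.support.max' h) 1) ∧
    ¬ ∀ μ (h : μ.1.support.Nonempty), (Ψ μ).1 = Finsupp.single (μ.1.support.min' h) 1 :=
  H.MP_aec1ed_pr.main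

end Pool.Agent.Results.MP_aec1ed_pr.Exotic
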